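import Pool.Agent.Helper20.QD.St1

/-!
# Project QD, part B (MP_d112a4_gt), module TCV: logarithms on convex sets
-/

namespace Pool.Agent.Helper41.QD

open Pool.Agent.Helper35.PM Pool.Agent.Helper20.QD

theorem hTCV : StTCV := by
  intro K u hK hu hne
  rcases K.eq_empty_or_nonempty with hE | ⟨x₀, hx₀⟩
  · rw [hE]
    exact ⟨fun _ => 0, continuousOn_empty _, fun z hz => absurd hz (Set.notMem_empty z)⟩
  · have hcs : ContractibleSpace K := hK.contractibleSpace ⟨x₀, hx₀⟩
    have hsc : SimplyConnectedSpace K := SimplyConnectedSpace.ofContractible K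
    have hlp : LocallyPathConnectedSpace K := hK.locallyPathConnectedSpace
    have hc : Continuous (fun z : K => u z) := continuousOn_iff_continuous_domRestrict.mp hu
    obtain ⟨f, ⟨-, hf⟩, -⟩ := Complex.isCoveringMapOn_exp.existsUnique_continuousMap_lifts
      (⟨fun z : K => u z, hc⟩ : C(K, ℂ)) (a₀ := (⟨x₀, hx₀⟩ : K))
      (e₀ := Complex.log (u x₀)) (Complex.exp_log (hne x₀ hx₀)) (fun z => hne z z.2)
    classical
    let g : ℂ → ℂ := fun z => if hz : z ∈ K then f ⟨z, hz⟩ else 0
    have hg : ∀ z : K, g z = f z := by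
      intro z
      exact dif_pos z.2
    refine ⟨g, ?_, ?_⟩
    · rw [continuousOn_iff_continuous_domRestrict]
      have e : K.domRestrict g = f := funext hg
      rw [e]
      exact f.continuous
    · intro z hz
      have h1 := congrFun hf ⟨z, hz⟩
      have h2 := hg ⟨z, hz⟩
      change g z = f ⟨z, hz⟩ at h2
      rw [h2]
      exact h1.symm

end Pool.Agent.Helper41.QD
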